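import Pool.Agent.helper97.KR.Spec

set_option autoImplicit false

/-!
Row CT1: contraction keeps connectedness; the edges inside `U` can be dropped.
-/

namespace Pool.Agent.helper97.KR

open Finset Classical

noncomputable section

theorem CT1 : CT1_stmt := by
  intro V E ends S U t F ht hU hC u hu v hv
  have key : ∀ a b, Jn ends F a b →
      Relation.ReflTransGen (Jn (cE ends U t) {e | e ∈ F ∧ ¬ ∀ v ∈ ends e, v ∈ U})
        (cp U t a) (cp U t b) := by
    rintro a b ⟨e, he, hab⟩
    by_cases hin : ∀ v ∈ ends e, v ∈ U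
    · have ha : a ∈ U := hin a (by rw [hab]; exact Sym2.mem_mk_left a b)
      have hb : b ∈ U := hin b (by rw [hab]; exact Sym2.mem_mk_right a b)
      have h1 : cp U t a = t := if_pos ha
      have h2 : cp U t b = t := if_pos hb
      rw [h1, h2]
    · refine Relation.ReflTransGen.single ⟨e, ⟨he, hin⟩, ?_⟩
      unfold cE
      rw [hab, Sym2.map_mk]
  have lift : ∀ a b, Relation.ReflTransGen (Jn ends F) a b →
      Relation.ReflTransGen (Jn (cE ends U t) {e | e ∈ F ∧ ¬ ∀ v ∈ ends e, v ∈ U})
        (cp U t a) (cp U t b) := by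
    intro a b h
    induction h with
    | refl => exact Relation.ReflTransGen.refl
    | tail _ h2 ih => exact ih.trans (key _ _ h2)
  have fix : ∀ w ∈ cS S U t, cp U t w = w ∧ w ∈ S := by
    intro w hw
    rcases Finset.mem_insert.1 hw with h | h
    · subst h
      exact ⟨if_pos ht, hU ht⟩
    · rw [Finset.mem_sdiff] at h
      exact ⟨if_neg h.2, h.1⟩
  have h := lift u v (hC u (fix u hu).2 v (fix v hv).2)
  rwa [(fix u hu).1, (fix v hv).1] at h

end

end Pool.Agent.helper97.KR
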